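import Pool.Agent.X16.NW.D

/-!
# Nonlinear windows: sets of natural numbers
-/

set_option autoImplicit false

open Finset Filter Topology MeasureTheory

namespace Pool.Agent.X16.NW

open scoped ENNReal NNReal

/-- from a bound for the counting function at natural numbers -/
theorem count_nat (P : Set ℕ) {s : ℝ} (hs : 0 ≤ s)
    (hP : ∀ ε : ℝ, 0 < ε → ∃ C : ℝ, ∀ X : ℕ, 1 ≤ X →
      ({t : ℕ | t ∈ P ∧ t ≤ X}.ncard : ℝ) ≤ C * (X : ℝ) ^ (s + ε)) (ε : ℝ) (hε : 0 < ε) :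
    ∃ C : ℝ, ∀ X : ℝ, 1 ≤ X → {t : ℕ | t ∈ P ∧ (t : ℝ) ≤ X}.Finite ∧
      ({t : ℕ | t ∈ P ∧ (t : ℝ) ≤ X}.ncard : ℝ) ≤ C * X ^ (s + ε) := by
  obtain ⟨C, hC⟩ := hP ε hε
  refine ⟨|C|, fun X hX => ?_⟩
  have hX1 : 1 ≤ ⌊X⌋₊ := Nat.le_floor (by exact_mod_cast hX)
  have e : {t : ℕ | t ∈ P ∧ (t : ℝ) ≤ X} = {t : ℕ | t ∈ P ∧ t ≤ ⌊X⌋₊} := by
    ext t
    simp only [Set.mem_setOf_eq]
    rw [Nat.le_floor_iff (by linarith)]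
  rw [e]
  refine ⟨(Set.finite_Iic ⌊X⌋₊).subset fun t ht => ht.2, (hC _ hX1).trans ?_⟩
  calc C * ((⌊X⌋₊ : ℕ) : ℝ) ^ (s + ε) ≤ |C| * ((⌊X⌋₊ : ℕ) : ℝ) ^ (s + ε) :=
        mul_le_mul_of_nonneg_right (le_abs_self C) (Real.rpow_nonneg (Nat.cast_nonneg _) _)
    _ ≤ |C| * X ^ (s + ε) := mul_le_mul_of_nonneg_left
        (Real.rpow_le_rpow (Nat.cast_nonneg _) (Nat.floor_le (by linarith)) (by positivity))
        (abs_nonneg C)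

open Classical in
/-- the same, with the counting function on `(0, X]` -/
theorem count_filter (P : Set ℕ) {s : ℝ} (hs : 0 ≤ s)
    (hP : ∀ ε : ℝ, 0 < ε → ∃ C : ℝ, ∀ X : ℕ, 1 ≤ X →
      (((Ioc 0 X).filter (fun t => t ∈ P)).card : ℝ) ≤ C * (X : ℝ) ^ (s + ε)) (ε : ℝ) (hε : 0 < ε) :
    ∃ C : ℝ, ∀ X : ℝ, 1 ≤ X → {t : ℕ | t ∈ P ∧ (t : ℝ) ≤ X}.Finite ∧
      ({t : ℕ | t ∈ P ∧ (t : ℝ) ≤ X}.ncard : ℝ) ≤ C * X ^ (s + ε) := by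
  refine count_nat P hs (fun δ hδ => ?_) ε hε
  obtain ⟨C, hC⟩ := hP δ hδ
  refine ⟨|C| + 1, fun X hX => ?_⟩
  have hX1 : (1 : ℝ) ≤ X := by exact_mod_cast hX
  have hsub : {t : ℕ | t ∈ P ∧ t ≤ X} ⊆
      (((Ioc 0 X).filter (fun t => t ∈ P) ∪ {0} : Finset ℕ) : Set ℕ) := by
    rintro t ⟨ht, htX⟩
    rw [mem_coe, mem_union, mem_filter, mem_Ioc, mem_singleton]
    rcases Nat.eq_zero_or_pos t with h0 | h0
    · exact Or.inr h0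
    · exact Or.inl ⟨⟨h0, htX⟩, ht⟩
  have h1 := Set.ncard_le_ncard hsub (Finset.finite_toSet _)
  rw [Set.ncard_coe_finset] at h1
  have h2 := h1.trans (Finset.card_union_le _ _)
  rw [card_singleton] at h2
  have h3 : ({t : ℕ | t ∈ P ∧ t ≤ X}.ncard : ℝ) ≤
      (((Ioc 0 X).filter (fun t => t ∈ P)).card : ℝ) + 1 := by exact_mod_cast h2
  have h4 := hC X hX
  have h5 : (1 : ℝ) ≤ (X : ℝ) ^ (s + δ) := Real.one_le_rpow hX1 (by positivity)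
  have h6 : C * (X : ℝ) ^ (s + δ) ≤ |C| * (X : ℝ) ^ (s + δ) :=
    mul_le_mul_of_nonneg_right (le_abs_self C) (by positivity)
  nlinarith

end Pool.Agent.X16.NW
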