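import Pool.Agent.X16.NW.C

/-!
# Almost all real powers
-/

set_option autoImplicit false

open Finset Filter Topology MeasureTheory

namespace Pool.Agent.X16.NW

open scoped ENNReal NNReal

theorem null_of_dim {E : Set ℝ} {q : ℝ} (hq : q < 1) (hE : dimH E ≤ ENNReal.ofReal q) :
    volume E = 0 := by
  have h1 : dimH E < ((1 : ℝ≥0) : ℝ≥0∞) := by
    refine hE.trans_lt ?_
    rw [ENNReal.coe_one]
    exact ENNReal.ofReal_lt_one.2 hq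
  have h2 := hausdorffMeasure_of_dimH_lt h1
  rw [NNReal.coe_one, hausdorffMeasure_real] at h2
  exact h2

/-- almost all powers -/
theorem ae_rpow {T : Type} (S : Set T) (h : T → ℝ) {s : ℝ} (hs : 0 ≤ s)
    (hS : ∀ ε : ℝ, 0 < ε → ∃ C : ℝ, ∀ X : ℝ, 1 ≤ X → {t | t ∈ S ∧ h t ≤ X}.Finite ∧
      ({t | t ∈ S ∧ h t ≤ X}.ncard : ℝ) ≤ C * X ^ (s + ε))
    (κ : ℕ → ℝ) (hκ : Tendsto (fun n : ℕ => κ n / Real.log n) atTop atTop) (θ : ℝ) (hθ0 : 0 ≤ θ)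
    (hθ : s + θ < 1) :
    ∀ᵐ t : ℝ, 1 < t → ∃ n₀ : ℕ, ∀ n : ℕ, n₀ ≤ n → ∀ e ∈ S,
      (t ^ κ n) ^ θ < |h e - t ^ κ n| := by
  obtain ⟨E, hE, hall⟩ := windows_loc S h le_rfl hs hθ0 (by linarith) hS _ _ (loc_rpow κ hκ)
  have h1 : volume E = 0 := by
    refine null_of_dim ?_ hE
    rw [div_lt_one (by linarith)]
    linarith
  have h2 : ∀ᵐ t : ℝ, t ∉ E := by
    rw [ae_iff]
    simpa using h1
  filter_upwards [h2] with t ht ht1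
  exact hall t ht1 ht

/-- almost all exponents -/
theorem ae_npow {T : Type} (S : Set T) (h : T → ℝ) {s : ℝ} (hs : 0 ≤ s)
    (hS : ∀ ε : ℝ, 0 < ε → ∃ C : ℝ, ∀ X : ℝ, 1 ≤ X → {t | t ∈ S ∧ h t ≤ X}.Finite ∧
      ({t | t ∈ S ∧ h t ≤ X}.ncard : ℝ) ≤ C * X ^ (s + ε)) (θ : ℝ) (hθ0 : 0 ≤ θ)
    (hθ : s + θ < 1) :
    ∀ᵐ t : ℝ, 1 / (1 - s - θ) < t → ∃ n₀ : ℕ, ∀ n : ℕ, n₀ ≤ n → ∀ e ∈ S,
      ((n : ℝ) ^ t) ^ θ < |h e - (n : ℝ) ^ t| := by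
  have hd : 0 < 1 - s - θ := by linarith
  have key : ∀ k : ℕ, ∀ᵐ t : ℝ, 1 / (1 - s - θ) + 1 / ((k : ℝ) + 1) ≤ t →
      ∃ n₀ : ℕ, ∀ n : ℕ, n₀ ≤ n → ∀ e ∈ S, ((n : ℝ) ^ t) ^ θ < |h e - (n : ℝ) ^ t| := by
    intro k
    set a : ℝ := 1 / (1 - s - θ) + 1 / ((k : ℝ) + 1) with ha
    have ha0 : 0 < a := by positivity
    obtain ⟨E, hE, hall⟩ := windows_loc S h (one_div_pos.2 ha0).le hs hθ0 (by linarith) hS _ _
      (loc_npow a ha0)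
    have h1 : volume E = 0 := by
      refine null_of_dim ?_ hE
      rw [div_lt_one (by linarith)]
      have h2 : 1 / a < 1 - s - θ := by
        rw [div_lt_iff₀ ha0, ha, mul_add, mul_one_div_cancel hd.ne']
        have : 0 < (1 - s - θ) * (1 / ((k : ℝ) + 1)) := by positivity
        linarith
      linarith
    have h2 : ∀ᵐ t : ℝ, t ∉ E := by
      rw [ae_iff]
      simpa using h1
    filter_upwards [h2] with t ht ht1
    exact hall t ht1 ht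
  filter_upwards [ae_all_iff.2 key] with t ht ht1
  obtain ⟨k, hk⟩ := exists_nat_one_div_lt (sub_pos.2 ht1)
  exact ht k (by linarith)

end Pool.Agent.X16.NW
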