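import Pool.Agent.X16.NW.E

/-!
# Properties of the real numbers `t ^ κ_n` and `n ^ t`
-/

set_option autoImplicit false

open Finset Filter Topology MeasureTheory

namespace Pool.Agent.X16.NW

open scoped ENNReal NNReal

/-- Let `f` be a locally expanding family on `I` with exponent `τ ≥ 0`. For all `t ∈ I` outside a set of
Hausdorff dimension at most `(s + τ) / (1 - θ)`, for each `j` the numbers `f_n(t)` have the property `Q j`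
for all large `n`. -/
def AlongFamilies (s θ : ℝ) (Q : ℕ → ℝ → Prop) : Prop :=
  ∀ (f : ℕ → ℝ → ℝ) (I : Set ℝ) (τ : ℝ), 0 ≤ τ → LocExpanding f I τ →
    ∃ E : Set ℝ, dimH E ≤ ENNReal.ofReal ((s + τ) / (1 - θ)) ∧ ∀ t ∈ I, t ∉ E →
      ∀ j : ℕ, ∃ n₀ : ℕ, ∀ n : ℕ, n₀ ≤ n → Q j (f n t)

/-- If `κ_n / log n → ∞` then for all `t > 1` outside a set of Hausdorff dimension at most `s / (1 - θ)`,
for each `j` the numbers `t ^ κ_n` have the property `Q j` for all large `n`; and for all `a > 0` and all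
`t ≥ a` outside a set of Hausdorff dimension at most `(s + 1 / a) / (1 - θ)`, for each `j` the numbers
`n ^ t` have the property `Q j` for all large `n`. -/
def AlongPowers (s θ : ℝ) (Q : ℕ → ℝ → Prop) : Prop :=
  (∀ κ : ℕ → ℝ, Tendsto (fun n : ℕ => κ n / Real.log n) atTop atTop →
    ∃ E : Set ℝ, dimH E ≤ ENNReal.ofReal (s / (1 - θ)) ∧ ∀ t : ℝ, 1 < t → t ∉ E →
      ∀ j : ℕ, ∃ n₀ : ℕ, ∀ n : ℕ, n₀ ≤ n → Q j (t ^ κ n)) ∧
  (∀ a : ℝ, 0 < a →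
    ∃ E : Set ℝ, dimH E ≤ ENNReal.ofReal ((s + 1 / a) / (1 - θ)) ∧ ∀ t : ℝ, a ≤ t → t ∉ E →
      ∀ j : ℕ, ∃ n₀ : ℕ, ∀ n : ℕ, n₀ ≤ n → Q j ((n : ℝ) ^ t))

/-- If `κ_n / log n → ∞` then for almost all `t > 1`, for each `j` the numbers `t ^ κ_n` have the property
`Q j` for all large `n`; and for almost all `t > 1 / (1 - s - θ)`, for each `j` the numbers `n ^ t` have
the property `Q j` for all large `n`. -/
def AlmostAllPowers (s θ : ℝ) (Q : ℕ → ℝ → Prop) : Prop :=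
  (∀ κ : ℕ → ℝ, Tendsto (fun n : ℕ => κ n / Real.log n) atTop atTop →
    ∀ᵐ t : ℝ, 1 < t → ∀ j : ℕ, ∃ n₀ : ℕ, ∀ n : ℕ, n₀ ≤ n → Q j (t ^ κ n)) ∧
  (∀ᵐ t : ℝ, 1 / (1 - s - θ) < t → ∀ j : ℕ, ∃ n₀ : ℕ, ∀ n : ℕ, n₀ ≤ n → Q j ((n : ℝ) ^ t))

theorem along_families {T : Type} (S : ℕ → Set T) (h : T → ℝ) (s θ : ℝ) (hs : 0 ≤ s) (hθ0 : 0 ≤ θ)
    (hθ1 : θ < 1) (hS : ∀ j : ℕ, ∀ ε : ℝ, 0 < ε → ∃ C : ℝ, ∀ X : ℝ, 1 ≤ X →
      {t | t ∈ S j ∧ h t ≤ X}.Finite ∧ ({t | t ∈ S j ∧ h t ≤ X}.ncard : ℝ) ≤ C * X ^ (s + ε))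
    (Q : ℕ → ℝ → Prop) (hQ : ∀ (j : ℕ) (F : ℝ), (∀ e ∈ S j, F ^ θ < |h e - F|) → Q j F) :
    AlongFamilies s θ Q := by
  intro f I τ hτ hf
  choose E hE h2 using fun j : ℕ => windows_loc (S j) h hτ hs hθ0 hθ1 (hS j) I f hf
  refine ⟨⋃ j, E j, ?_, fun t ht htE j => ?_⟩
  · rw [dimH_iUnion]
    exact iSup_le hE
  · obtain ⟨n₀, hn⟩ := h2 j t ht fun hcon => htE (Set.mem_iUnion.2 ⟨j, hcon⟩)
    exact ⟨n₀, fun n hn1 => hQ j _ (hn n hn1)⟩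

theorem along_powers_of {s θ : ℝ} {Q : ℕ → ℝ → Prop} (h : AlongFamilies s θ Q) : AlongPowers s θ Q := by
  refine ⟨fun κ hκ => ?_, fun a ha => ?_⟩
  · obtain ⟨E, hE, h2⟩ := h _ _ 0 le_rfl (loc_rpow κ hκ)
    rw [add_zero] at hE
    exact ⟨E, hE, fun t ht => h2 t ht⟩
  · obtain ⟨E, hE, h2⟩ := h _ _ _ (one_div_pos.2 ha).le (loc_npow a ha)
    exact ⟨E, hE, fun t ht => h2 t ht⟩

theorem ae_powers_of {s θ : ℝ} (hs : 0 ≤ s) (hθ1 : s + θ < 1) {Q : ℕ → ℝ → Prop}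
    (h : AlongPowers s θ Q) : AlmostAllPowers s θ Q := by
  have hd : 0 < 1 - s - θ := by linarith
  have hae : ∀ {E : Set ℝ} {q : ℝ}, q < 1 → dimH E ≤ ENNReal.ofReal q → ∀ᵐ t : ℝ, t ∉ E := by
    intro E q hq hE
    rw [ae_iff]
    simpa using null_of_dim hq hE
  refine ⟨fun κ hκ => ?_, ?_⟩
  · obtain ⟨E, hE, h2⟩ := h.1 κ hκ
    filter_upwards [hae (by rw [div_lt_one (by linarith)]; linarith) hE] with t ht ht1
    exact h2 t ht1 ht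
  · have key : ∀ k : ℕ, ∀ᵐ t : ℝ, 1 / (1 - s - θ) + 1 / ((k : ℝ) + 1) ≤ t →
        ∀ j : ℕ, ∃ n₀ : ℕ, ∀ n : ℕ, n₀ ≤ n → Q j ((n : ℝ) ^ t) := by
      intro k
      set a : ℝ := 1 / (1 - s - θ) + 1 / ((k : ℝ) + 1) with ha
      have ha0 : 0 < a := by positivity
      obtain ⟨E, hE, h2⟩ := h.2 a ha0
      have h3 : 1 / a < 1 - s - θ := by
        rw [div_lt_iff₀ ha0, ha, mul_add, mul_one_div_cancel hd.ne']
        have : 0 < (1 - s - θ) * (1 / ((k : ℝ) + 1)) := by positivity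
        linarith
      filter_upwards [hae (by rw [div_lt_one (by linarith)]; linarith) hE] with t ht ht1
      exact h2 t ht1 ht
    filter_upwards [ae_all_iff.2 key] with t ht ht1
    obtain ⟨k, hk⟩ := exists_nat_one_div_lt (sub_pos.2 ht1)
    exact ht k (by linarith)

end Pool.Agent.X16.NW
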