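import Mathlib

/-!
# Limsup sets and nonlinear windows
-/

set_option autoImplicit false

open Finset Filter Topology MeasureTheory

namespace Pool.Agent.X16.NW

open scoped ENNReal NNReal

/-- the exponent of convergence of `w` is at most `τ` -/
def ExpLe (w : ℕ → ℝ) (τ : ℝ) : Prop := ∀ p : ℝ, τ < p → Summable (fun n : ℕ => (w n) ^ (-p))

theorem tendsto_w {w : ℕ → ℝ} {τ : ℝ} (hw : ∀ n, 0 < w n) (hτ : 0 ≤ τ) (h : ExpLe w τ) :
    Tendsto w atTop atTop := by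
  have h1 : Tendsto (fun n => (w n) ^ (-(τ + 1))) atTop (𝓝 0) :=
    (h (τ + 1) (by linarith)).tendsto_atTop_zero
  have h2 : Tendsto (fun n => (w n) ^ (-(τ + 1))) atTop (𝓝[>] 0) := by
    rw [tendsto_nhdsWithin_iff]
    exact ⟨h1, Eventually.of_forall fun n => Real.rpow_pos_of_pos (hw n) _⟩
  have h3 : Tendsto (fun n => ((w n) ^ (-(τ + 1)))⁻¹) atTop atTop := tendsto_inv_nhdsGT_zero.comp h2
  have h4 : Tendsto (fun n => (((w n) ^ (-(τ + 1)))⁻¹) ^ (1 / (τ + 1))) atTop atTop :=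
    (tendsto_rpow_atTop (by positivity)).comp h3
  refine h4.congr fun n => ?_
  rw [← Real.rpow_neg (hw n).le, neg_neg, ← Real.rpow_mul (hw n).le,
    mul_one_div_cancel (by positivity), Real.rpow_one]

/-- a limsup set with two indices -/
theorem dim_cover {T : Type} (U : ℕ → ℕ → Finset T) (B : ℕ → ℕ → T → Set ℝ) (ρ : ℕ → ℕ → ℝ)
    (ρ0 : ℕ → ℝ) (D : ℝ) (hD : 0 < D) (hρ : ∀ m k, 0 < ρ m k) (hρ0 : ∀ m k, ρ m k ≤ ρ0 m)
    (ht : Tendsto ρ0 atTop (𝓝 0)) (a b : ℕ → ℝ) (ha : ∀ m, 0 ≤ a m) (hb : ∀ k, 0 ≤ b k)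
    (hsa : Summable a) (hsb : Summable b)
    (hcard : ∀ m k, ((U m k).card : ℝ) * (ρ m k) ^ D ≤ a m * b k)
    (hB : ∀ m k, ∀ e ∈ U m k, Metric.ediam (B m k e) ≤ ENNReal.ofReal (ρ m k)) :
    dimH {t : ℝ | ∀ n : ℕ, ∃ m : ℕ, n ≤ m ∧ ∃ k : ℕ, ∃ e ∈ U m k, t ∈ B m k e} ≤
      ENNReal.ofReal D := by
  have hDn : ((Real.toNNReal D : ℝ≥0) : ℝ) = D := Real.coe_toNNReal D hD.le
  have hgoal : ENNReal.ofReal D = ((Real.toNNReal D : ℝ≥0) : ℝ≥0∞) := rfl
  rw [hgoal]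
  apply dimH_le_of_hausdorffMeasure_ne_top
  rw [hDn]
  have hr : ∀ ε : ℝ≥0∞, 0 < ε → ∃ N : ℕ, ∀ n : ℕ, N ≤ n → ENNReal.ofReal (ρ0 n) ≤ ε := by
    intro ε hε
    have h1 := ENNReal.tendsto_ofReal ht
    rw [ENNReal.ofReal_zero] at h1
    exact ((h1.eventually (ge_mem_nhds hε))).exists_forall_of_atTop
  set r : ℕ → ℝ≥0∞ := fun n => ⨆ i : ℕ, ENNReal.ofReal (ρ0 (n + i)) with hrdef
  have hrt : Tendsto r atTop (𝓝 0) := by
    rw [ENNReal.tendsto_atTop_zero]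
    intro ε hε
    obtain ⟨N, hN⟩ := hr ε hε
    exact ⟨N, fun n hn => iSup_le fun i => hN _ (by omega)⟩
  have key := Measure.hausdorffMeasure_le_liminf_tsum (X := ℝ) (β := ℕ)
    (ι := fun n => Σ i : ℕ, Σ k : ℕ, (U (n + i) k)) D
    {t : ℝ | ∀ n : ℕ, ∃ m : ℕ, n ≤ m ∧ ∃ k : ℕ, ∃ e ∈ U m k, t ∈ B m k e}
    (l := atTop) r hrt
    (fun n q => B (n + q.1) q.2.1 (q.2.2 : T))
    (Eventually.of_forall fun n q => by
      refine (hB _ _ _ q.2.2.2).trans ?_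
      refine (ENNReal.ofReal_le_ofReal (hρ0 _ _)).trans ?_
      exact le_iSup (fun i : ℕ => ENNReal.ofReal (ρ0 (n + i))) q.1)
    (Eventually.of_forall fun n t htt => by
      obtain ⟨m, hm, k, e, he, hte⟩ := htt n
      obtain ⟨i, rfl⟩ := Nat.exists_eq_add_of_le hm
      rw [Set.mem_iUnion]
      exact ⟨⟨i, k, ⟨e, he⟩⟩, hte⟩)
  refine ne_top_of_le_ne_top ?_ key
  have htot : (∑' m : ℕ, ∑' k : ℕ, ENNReal.ofReal (a m * b k)) ≠ ⊤ := by
    have h1 : ∀ m, (∑' k : ℕ, ENNReal.ofReal (a m * b k)) = ENNReal.ofReal (a m * ∑' k, b k) := by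
      intro m
      rw [← tsum_mul_left, ENNReal.ofReal_tsum_of_nonneg (fun k => mul_nonneg (ha m) (hb k))
        (hsb.mul_left _)]
    simp only [h1]
    rw [← ENNReal.ofReal_tsum_of_nonneg (fun m => mul_nonneg (ha m) (tsum_nonneg hb))
      (hsa.mul_right _)]
    exact ENNReal.ofReal_ne_top
  have hbound : ∀ n : ℕ, (∑' q : Σ i : ℕ, Σ k : ℕ, (U (n + i) k),
      Metric.ediam (B (n + q.1) q.2.1 (q.2.2 : T)) ^ D) ≤
      ∑' m : ℕ, ∑' k : ℕ, ENNReal.ofReal (a m * b k) := by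
    intro n
    rw [ENNReal.tsum_sigma']
    calc (∑' i : ℕ, ∑' q : (Σ k : ℕ, (U (n + i) k)),
        Metric.ediam (B (n + i) q.1 (q.2 : T)) ^ D)
        ≤ ∑' i : ℕ, ∑' k : ℕ, ENNReal.ofReal (a (n + i) * b k) := by
          apply ENNReal.tsum_le_tsum
          intro i
          rw [ENNReal.tsum_sigma']
          apply ENNReal.tsum_le_tsum
          intro k
          have h1 : ∀ x : (U (n + i) k), Metric.ediam (B (n + i) k (x : T)) ^ D ≤
              ENNReal.ofReal ((ρ (n + i) k) ^ D) := by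
            intro x
            rw [← ENNReal.ofReal_rpow_of_pos (hρ _ _)]
            exact ENNReal.rpow_le_rpow (hB _ _ _ x.2) hD.le
          refine (ENNReal.tsum_le_tsum h1).trans ?_
          rw [tsum_fintype]
          simp only [Finset.sum_const, Finset.card_univ, Fintype.card_coe, nsmul_eq_mul]
          rw [← ENNReal.ofReal_natCast, ← ENNReal.ofReal_mul (by positivity)]
          exact ENNReal.ofReal_le_ofReal (hcard _ _)
      _ ≤ ∑' m : ℕ, ∑' k : ℕ, ENNReal.ofReal (a m * b k) :=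
          ENNReal.tsum_comp_le_tsum_of_injective (f := fun i : ℕ => n + i)
            (fun a b h => by simpa using h)
            (fun m : ℕ => ∑' k : ℕ, ENNReal.ofReal (a m * b k))
  refine ne_top_of_le_ne_top htot ?_
  apply Filter.liminf_le_of_le
  · isBoundedDefault
  · intro c hc
    obtain ⟨n, hn⟩ := hc.exists
    exact hn.trans (hbound n)

end Pool.Agent.X16.NW
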