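import Pool.Agent.X16.NW.A

/-!
# Nonlinear windows without elements of a thin set
-/

set_option autoImplicit false

open Finset Filter Topology MeasureTheory

namespace Pool.Agent.X16.NW

open scoped ENNReal NNReal

/-- bounded range, explicit constants -/
theorem dim_windows {T : Type} (S : Set T) (h : T → ℝ) {w : ℕ → ℝ} {s τ θ D c : ℝ}
    (hw : ∀ n, 1 ≤ w n) (hτ : 0 ≤ τ) (hwτ : ExpLe w τ) (hs : 0 ≤ s) (hθ0 : 0 ≤ θ) (hθ1 : θ < 1)
    (hD : s + τ < D * (1 - θ)) (C : ℝ) (hC : 0 ≤ C)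
    (hS : ∀ X : ℝ, 1 ≤ X → {t | t ∈ S ∧ h t ≤ X}.Finite ∧
      ({t | t ∈ S ∧ h t ≤ X}.ncard : ℝ) ≤ C * X ^ s)
    (I : Set ℝ) (f : ℕ → ℝ → ℝ) (hfw : ∀ n, ∀ t ∈ I, w n ≤ f n t) (hc : 0 < c)
    (hexp : ∀ n, ∀ t ∈ I, ∀ u ∈ I, t ≤ u → c * f n t * (u - t) ≤ f n u - f n t) :
    dimH {t : ℝ | t ∈ I ∧ ∀ n₀ : ℕ, ∃ n : ℕ, n₀ ≤ n ∧ ∃ e ∈ S, |h e - f n t| ≤ (f n t) ^ θ} ≤
      ENNReal.ofReal D := by
  have h1θ : 0 < 1 - θ := by linarith
  have hD0 : 0 < D := by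
    have h1 : 0 < D * (1 - θ) := lt_of_le_of_lt (by positivity) hD
    exact (pos_iff_pos_of_mul_pos h1).2 h1θ
  have hwp : ∀ n, 0 < w n := fun n => lt_of_lt_of_le one_pos (hw n)
  have h2w : ∀ m k : ℕ, w m ≤ 2 ^ k * w m := by
    intro m k
    have h1 : (1 : ℝ) ≤ 2 ^ k := one_le_pow₀ one_le_two
    nlinarith [hwp m]
  have hX : ∀ m k : ℕ, 1 ≤ 2 ^ (k + 2) * w m := fun m k => (hw m).trans (h2w m _)
  set U : ℕ → ℕ → Finset T := fun m k => (hS (2 ^ (k + 2) * w m) (hX m k)).1.toFinset with hU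
  set B : ℕ → ℕ → T → Set ℝ := fun m k e => {t | t ∈ I ∧ 2 ^ k * w m ≤ f m t ∧
    f m t < 2 ^ (k + 1) * w m ∧ |h e - f m t| ≤ (f m t) ^ θ} with hB
  set ρ : ℕ → ℕ → ℝ := fun m k => 4 / c * (2 ^ k * w m) ^ (θ - 1) with hρ
  set ρ0 : ℕ → ℝ := fun m => 4 / c * (w m) ^ (θ - 1) with hρ0
  set p : ℝ := D * (1 - θ) - s with hp
  have hp1 : τ < p := by rw [hp]; linarith
  have hp0 : 0 < p := lt_of_le_of_lt hτ hp1
  set K : ℝ := C * 4 ^ s * (4 / c) ^ D with hK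
  have hK0 : 0 ≤ K := by positivity
  have hb1 : (2 : ℝ) ^ (-p) < 1 := Real.rpow_lt_one_of_one_lt_of_neg one_lt_two (by linarith)
  have hkey := dim_cover U B ρ ρ0 D hD0 (fun m k => by
      have := hwp m
      positivity)
    (fun m k => by
      refine mul_le_mul_of_nonneg_left ?_ (by positivity)
      exact Real.rpow_le_rpow_of_nonpos (hwp m) (h2w m k) (by linarith))
    (by
      have h1 : Tendsto (fun n => (w n) ^ (-(1 - θ))) atTop (𝓝 0) :=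
        (tendsto_rpow_neg_atTop h1θ).comp (tendsto_w hwp hτ hwτ)
      have h2 := h1.const_mul (4 / c)
      rw [mul_zero] at h2
      refine h2.congr (fun n => ?_)
      simp only [hρ0]
      congr 2
      ring)
    (fun m => K * (w m) ^ (-p)) (fun k => ((2 : ℝ) ^ (-p)) ^ k)
    (fun m => mul_nonneg hK0 (Real.rpow_nonneg (hwp m).le _))
    (fun k => by positivity)
    ((hwτ p hp1).mul_left _)
    (summable_geometric_of_lt_one (by positivity) hb1)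
    (fun m k => by
      have hY : 0 < 2 ^ k * w m := by have := hwp m; positivity
      have h1 : ((U m k).card : ℝ) ≤ C * (2 ^ (k + 2) * w m) ^ s := by
        have h2 := (hS (2 ^ (k + 2) * w m) (hX m k)).2
        rw [Set.ncard_eq_toFinset_card _ (hS (2 ^ (k + 2) * w m) (hX m k)).1] at h2
        exact h2
      have h3 : (2 : ℝ) ^ (k + 2) * w m = 4 * (2 ^ k * w m) := by ring
      rw [h3, Real.mul_rpow (by norm_num) hY.le] at h1
      calc ((U m k).card : ℝ) * (ρ m k) ^ D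
          ≤ (C * (4 ^ s * (2 ^ k * w m) ^ s)) * (ρ m k) ^ D :=
            mul_le_mul_of_nonneg_right h1 (Real.rpow_nonneg (by positivity) _)
        _ = K * ((2 ^ k * w m) ^ s * (2 ^ k * w m) ^ ((θ - 1) * D)) := by
            simp only [hρ]
            rw [Real.mul_rpow (by positivity) (Real.rpow_nonneg hY.le _), ← Real.rpow_mul hY.le]
            ring
        _ = K * (2 ^ k * w m) ^ (-p) := by
            rw [← Real.rpow_add hY]
            congr 2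
            rw [hp]
            ring
        _ = K * (w m) ^ (-p) * ((2 : ℝ) ^ (-p)) ^ k := by
            rw [Real.mul_rpow (by positivity) (hwp m).le]
            have h4 : ((2 : ℝ) ^ k) ^ (-p) = ((2 : ℝ) ^ (-p)) ^ k := by
              rw [← Real.rpow_natCast, ← Real.rpow_mul (by norm_num), mul_comm,
                Real.rpow_mul (by norm_num), Real.rpow_natCast]
            rw [h4]
            ring)
    (fun m k e he => by
      have hY : 0 < 2 ^ k * w m := by have := hwp m; positivity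
      have hdist : ∀ t ∈ B m k e, ∀ u ∈ B m k e, t ≤ u → u - t ≤ ρ m k := by
        rintro t ⟨ht, ht1, ht2, ht3⟩ u ⟨hu, hu1, hu2, hu3⟩ htu
        have hft : 0 ≤ f m t := hY.le.trans ht1
        have hfu : 0 ≤ f m u := hY.le.trans hu1
        have h1 := hexp m t ht u hu htu
        have h2 : f m u - f m t ≤ (f m u) ^ θ + (f m t) ^ θ := by
          rw [abs_le] at ht3 hu3
          linarith [ht3.1, ht3.2, hu3.1, hu3.2]
        have h3 : ∀ x : ℝ, 0 ≤ x → x < 2 ^ (k + 1) * w m → x ^ θ ≤ 2 * (2 ^ k * w m) ^ θ := by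
          intro x hx0 hx
          have h4 : x ^ θ ≤ (2 * (2 ^ k * w m)) ^ θ := by
            refine Real.rpow_le_rpow hx0 ?_ hθ0
            have : (2 : ℝ) ^ (k + 1) * w m = 2 * (2 ^ k * w m) := by ring
            linarith
          rw [Real.mul_rpow (by norm_num) hY.le] at h4
          refine h4.trans (mul_le_mul_of_nonneg_right ?_ (Real.rpow_nonneg hY.le _))
          calc (2 : ℝ) ^ θ ≤ 2 ^ (1 : ℝ) := Real.rpow_le_rpow_of_exponent_le one_le_two hθ1.le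
            _ = 2 := Real.rpow_one _
        have h5 := h3 _ hft ht2
        have h6 := h3 _ hfu hu2
        have h7 : c * (2 ^ k * w m) * (u - t) ≤ c * f m t * (u - t) :=
          mul_le_mul_of_nonneg_right (mul_le_mul_of_nonneg_left ht1 hc.le) (by linarith)
        have h8 : c * (2 ^ k * w m) * (u - t) ≤ 4 * (2 ^ k * w m) ^ θ := by linarith
        have h9 : ρ m k = 4 * (2 ^ k * w m) ^ θ / (c * (2 ^ k * w m)) := by
          simp only [hρ]
          rw [Real.rpow_sub_one hY.ne']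
          field_simp
        rw [h9, le_div_iff₀ (by positivity)]
        linarith
      refine Metric.ediam_le ?_
      intro t ht u hu
      rw [edist_dist, Real.dist_eq]
      refine ENNReal.ofReal_le_ofReal ?_
      rcases le_total t u with h1 | h1
      · rw [abs_sub_comm, abs_of_nonneg (by linarith)]
        exact hdist t ht u hu h1
      · rw [abs_of_nonneg (by linarith)]
        exact hdist u hu t ht h1)
  refine (dimH_mono ?_).trans hkey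
  rintro t ⟨ht, hlim⟩ n
  obtain ⟨m, hm, e, he, habs⟩ := hlim n
  have hF := hfw m t ht
  have hF1 : 1 ≤ f m t := (hw m).trans hF
  obtain ⟨k, hk1, hk2⟩ := exists_nat_pow_near (x := f m t / w m) (y := 2)
    (by rw [le_div_iff₀ (hwp m)]; linarith) one_lt_two
  rw [le_div_iff₀ (hwp m)] at hk1
  rw [div_lt_iff₀ (hwp m)] at hk2
  refine ⟨m, hm, k, e, ?_, ht, hk1, hk2, habs⟩
  simp only [hU, Set.Finite.mem_toFinset]
  refine ⟨he, ?_⟩
  have h1 : (f m t) ^ θ ≤ f m t := by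
    calc (f m t) ^ θ ≤ (f m t) ^ (1 : ℝ) := Real.rpow_le_rpow_of_exponent_le hF1 hθ1.le
      _ = f m t := Real.rpow_one _
  rw [abs_le] at habs
  have h2 : (2 : ℝ) ^ (k + 2) * w m = 2 * (2 ^ (k + 1) * w m) := by ring
  rw [h2]
  linarith [habs.2]

/-- `f` is an expanding family on `I`: for all large `n`, `f_n ≥ w_n` on `I` for a sequence `w` with
exponent of convergence at most `τ`, and the logarithmic slopes of `f_n` are at least `c > 0`. -/
def Expanding (f : ℕ → ℝ → ℝ) (I : Set ℝ) (τ : ℝ) : Prop :=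
  ∃ (w : ℕ → ℝ) (c : ℝ) (n₁ : ℕ), 0 < c ∧ ExpLe w τ ∧ ∀ n, n₁ ≤ n → 1 ≤ w n ∧ ∀ t ∈ I, w n ≤ f n t ∧
    ∀ u ∈ I, t ≤ u → c * f n t * (u - t) ≤ f n u - f n t

/-- **Nonlinear windows.** -/
theorem windows {T : Type} (S : Set T) (h : T → ℝ) {s τ θ : ℝ} (hτ : 0 ≤ τ) (hs : 0 ≤ s)
    (hθ0 : 0 ≤ θ) (hθ1 : θ < 1)
    (hS : ∀ ε : ℝ, 0 < ε → ∃ C : ℝ, ∀ X : ℝ, 1 ≤ X → {t | t ∈ S ∧ h t ≤ X}.Finite ∧
      ({t | t ∈ S ∧ h t ≤ X}.ncard : ℝ) ≤ C * X ^ (s + ε))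
    (I : Set ℝ) (f : ℕ → ℝ → ℝ) (hf : Expanding f I τ) :
    dimH {t : ℝ | t ∈ I ∧ ∀ n₀ : ℕ, ∃ n : ℕ, n₀ ≤ n ∧ ∃ e ∈ S, |h e - f n t| ≤ (f n t) ^ θ} ≤
      ENNReal.ofReal ((s + τ) / (1 - θ)) := by
  obtain ⟨w, c, n₁, hc, hwτ, hall⟩ := hf
  have h1θ : 0 < 1 - θ := by linarith
  have hwτ' : ExpLe (fun n => w (n + n₁)) τ := by
    intro p hp
    exact (summable_nat_add_iff (f := fun n => (w n) ^ (-p)) n₁).2 (hwτ p hp)
  apply ENNReal.le_of_forall_pos_le_add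
  intro ε hε _
  have hε' : (0 : ℝ) < ε := by exact_mod_cast hε
  set ε1 : ℝ := ε * (1 - θ) / 2 with hε1
  have hε1p : 0 < ε1 := by positivity
  obtain ⟨C, hC⟩ := hS ε1 hε1p
  have hC' : ∀ X : ℝ, 1 ≤ X → {t | t ∈ S ∧ h t ≤ X}.Finite ∧
      ({t | t ∈ S ∧ h t ≤ X}.ncard : ℝ) ≤ |C| * X ^ (s + ε1) := by
    intro X hX
    exact ⟨(hC X hX).1,
      (hC X hX).2.trans (mul_le_mul_of_nonneg_right (le_abs_self C) (by positivity))⟩
  have h1 := dim_windows S h (w := fun n => w (n + n₁))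
    (fun n => (hall (n + n₁) (by omega)).1) hτ hwτ' (s := s + ε1) (by positivity) hθ0 hθ1
    (D := (s + τ) / (1 - θ) + ε) (by
      rw [add_mul, div_mul_cancel₀ _ h1θ.ne']
      rw [hε1]
      nlinarith) |C| (abs_nonneg _) hC' I (fun n => f (n + n₁))
      (fun n t ht => ((hall (n + n₁) (by omega)).2 t ht).1) hc
      (fun n t ht => ((hall (n + n₁) (by omega)).2 t ht).2)
  refine (dimH_mono ?_).trans (h1.trans ?_)
  · rintro t ⟨ht, hlim⟩
    refine ⟨ht, fun n₀ => ?_⟩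
    obtain ⟨n, hn, e, he, h2⟩ := hlim (n₀ + n₁)
    obtain ⟨i, rfl⟩ := Nat.exists_eq_add_of_le' (show n₁ ≤ n by omega)
    exact ⟨i, by omega, e, he, h2⟩
  · rw [ENNReal.ofReal_add (by positivity) hε'.le]
    gcongr
    rw [ENNReal.ofReal_coe_nnreal]

/-- `I` is a countable union of sets on which the family `f` is expanding -/
def LocExpanding (f : ℕ → ℝ → ℝ) (I : Set ℝ) (τ : ℝ) : Prop :=
  ∃ J : ℕ → Set ℝ, I ⊆ ⋃ A, J A ∧ ∀ A, Expanding f (J A) τ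

/-- **Nonlinear windows.** -/
theorem windows_loc {T : Type} (S : Set T) (h : T → ℝ) {s τ θ : ℝ} (hτ : 0 ≤ τ) (hs : 0 ≤ s)
    (hθ0 : 0 ≤ θ) (hθ1 : θ < 1)
    (hS : ∀ ε : ℝ, 0 < ε → ∃ C : ℝ, ∀ X : ℝ, 1 ≤ X → {t | t ∈ S ∧ h t ≤ X}.Finite ∧
      ({t | t ∈ S ∧ h t ≤ X}.ncard : ℝ) ≤ C * X ^ (s + ε))
    (I : Set ℝ) (f : ℕ → ℝ → ℝ) (hf : LocExpanding f I τ) :
    ∃ E : Set ℝ, dimH E ≤ ENNReal.ofReal ((s + τ) / (1 - θ)) ∧ ∀ t ∈ I, t ∉ E →
      ∃ n₀ : ℕ, ∀ n : ℕ, n₀ ≤ n → ∀ e ∈ S, (f n t) ^ θ < |h e - f n t| := by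
  obtain ⟨J, hJ, hE⟩ := hf
  refine ⟨⋃ A, {t : ℝ | t ∈ J A ∧ ∀ n₀ : ℕ, ∃ n : ℕ, n₀ ≤ n ∧ ∃ e ∈ S,
    |h e - f n t| ≤ (f n t) ^ θ}, ?_, fun t ht htE => ?_⟩
  · rw [dimH_iUnion]
    exact iSup_le fun A => windows S h hτ hs hθ0 hθ1 hS (J A) f (hE A)
  · by_contra hcon
    push Not at hcon
    obtain ⟨A, hA⟩ := Set.mem_iUnion.1 (hJ ht)
    refine htE (Set.mem_iUnion.2 ⟨A, hA, fun n₀ => ?_⟩)
    obtain ⟨n, hn, e, he, h1⟩ := hcon n₀
    exact ⟨n, hn, e, he, h1⟩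

end Pool.Agent.X16.NW
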