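import Pool.Agent.X16.NW.B

/-!
# Expanding families
-/

set_option autoImplicit false

open Finset Filter Topology MeasureTheory

namespace Pool.Agent.X16.NW

/-- `v_n t ^ κ_n` on `[a, b]` -/
theorem expanding_mul_rpow (v κ : ℕ → ℝ) (a b τ : ℝ) (ha : 0 < a) (hab : a ≤ b)
    (hκ' : ∀ᶠ n in atTop, 1 ≤ κ n) (hv : ∀ᶠ n in atTop, 1 ≤ v n * a ^ (κ n))
    (hw : ExpLe (fun n => v n * a ^ (κ n)) τ) :
    Expanding (fun n t => v n * t ^ (κ n)) (Set.Icc a b) τ := by
  obtain ⟨n₁, hn₁'⟩ := (hv.and hκ').exists_forall_of_atTop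
  have hn₁ : ∀ n, n₁ ≤ n → 1 ≤ v n * a ^ (κ n) := fun n hn => (hn₁' n hn).1
  have hb : 0 < b := ha.trans_le hab
  refine ⟨fun n => v n * a ^ (κ n), 1 / b, n₁, by positivity, hw, fun n hn => ⟨hn₁ n hn, ?_⟩⟩
  have hκ : 1 ≤ κ n := (hn₁' n hn).2
  have hvn : 0 < v n := by
    have h1 := hn₁ n hn
    have h2 : 0 < a ^ (κ n) := Real.rpow_pos_of_pos ha _
    by_contra h3
    have : v n * a ^ (κ n) ≤ 0 := mul_nonpos_of_nonpos_of_nonneg (not_lt.1 h3) h2.le
    linarith
  rintro t ⟨ht1, ht2⟩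
  have ht0 : 0 < t := ha.trans_le ht1
  refine ⟨mul_le_mul_of_nonneg_left (Real.rpow_le_rpow ha.le ht1 (by linarith [hκ])) hvn.le, ?_⟩
  rintro u ⟨hu1, hu2⟩ htu
  have hu0 : 0 < u := ht0.trans_le htu
  have h1 : 1 + κ n * (u / t - 1) ≤ (1 + (u / t - 1)) ^ (κ n) := by
    refine one_add_mul_self_le_rpow_one_add ?_ (hκ)
    have : 0 ≤ u / t := by positivity
    linarith
  have h2 : (1 + (u / t - 1)) ^ (κ n) = u ^ (κ n) / t ^ (κ n) := by
    rw [add_sub_cancel, Real.div_rpow (by positivity) ht0.le]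
  rw [h2, le_div_iff₀ (Real.rpow_pos_of_pos ht0 _)] at h1
  have h3 : 0 ≤ u / t - 1 := by
    rw [sub_nonneg, one_le_div ht0]
    exact htu
  have h4 : u / t - 1 ≤ κ n * (u / t - 1) := le_mul_of_one_le_left h3 (hκ)
  have h5 : 1 / b * (u - t) ≤ u / t - 1 := by
    have h6 : u / t - 1 = (u - t) / t := by field_simp
    rw [h6, one_div, inv_mul_eq_div]
    exact div_le_div_of_nonneg_left (by linarith) ht0 ht2
  have hp : 0 < t ^ (κ n) := Real.rpow_pos_of_pos ht0 _
  have h7 : t ^ (κ n) * (1 / b * (u - t)) ≤ u ^ (κ n) - t ^ (κ n) := by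
    have h8 : t ^ (κ n) * (1 / b * (u - t)) ≤ t ^ (κ n) * (κ n * (u / t - 1)) :=
      mul_le_mul_of_nonneg_left (h5.trans h4) hp.le
    nlinarith [h8, h1]
  calc 1 / b * (v n * t ^ (κ n)) * (u - t) = v n * (t ^ (κ n) * (1 / b * (u - t))) := by ring
    _ ≤ v n * (u ^ (κ n) - t ^ (κ n)) := mul_le_mul_of_nonneg_left h7 hvn.le
    _ = v n * u ^ (κ n) - v n * t ^ (κ n) := by ring

/-- powers of real numbers `> 1` -/
theorem loc_rpow (κ : ℕ → ℝ) (hκ : Tendsto (fun n : ℕ => κ n / Real.log n) atTop atTop) :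
    LocExpanding (fun n t => t ^ (κ n)) (Set.Ioi (1 : ℝ)) 0 := by
  refine ⟨fun A => Set.Icc (1 + 1 / ((A : ℝ) + 1)) (A + 2), fun t ht => ?_, fun A => ?_⟩
  · rw [Set.mem_Ioi] at ht
    obtain ⟨A, hA⟩ := exists_nat_gt (max t (1 / (t - 1)))
    have h1 : t < A := (le_max_left _ _).trans_lt hA
    have h2 : 1 / (t - 1) < A := (le_max_right _ _).trans_lt hA
    refine Set.mem_iUnion.2 ⟨A, ?_, by linarith⟩
    have h3 : 0 < t - 1 := by linarith
    rw [div_lt_iff₀ h3] at h2
    have h4 : (0 : ℝ) ≤ A := Nat.cast_nonneg A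
    have h5 : 1 / ((A : ℝ) + 1) ≤ t - 1 := by
      rw [div_le_iff₀ (by positivity)]
      nlinarith
    linarith
  · have ha : (1 : ℝ) < 1 + 1 / ((A : ℝ) + 1) := by
      have : (0 : ℝ) < 1 / ((A : ℝ) + 1) := by positivity
      linarith
    have hb : 1 + 1 / ((A : ℝ) + 1) ≤ (A : ℝ) + 2 := by
      have h4 : (0 : ℝ) ≤ A := Nat.cast_nonneg A
      have : 1 / ((A : ℝ) + 1) ≤ 1 := by
        rw [div_le_iff₀ (by positivity)]
        linarith
      linarith
    set a : ℝ := 1 + 1 / ((A : ℝ) + 1) with haa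
    have hla : 0 < Real.log a := Real.log_pos ha
    -- eventually `κ n ≥ M log n` and `κ n ≥ 1`
    have hlarge : ∀ M : ℝ, 0 < M → ∀ᶠ n : ℕ in atTop, M * Real.log n ≤ κ n ∧ 3 ≤ n := by
      intro M hM
      filter_upwards [hκ.eventually_ge_atTop M, eventually_ge_atTop 3] with n hn hn3
      have h3 : (3 : ℝ) ≤ n := by exact_mod_cast hn3
      have hln : 0 < Real.log n := Real.log_pos (by linarith)
      rw [le_div_iff₀ hln] at hn
      exact ⟨hn, hn3⟩
    have hκ1 : ∀ᶠ n : ℕ in atTop, 1 ≤ κ n := by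
      filter_upwards [hlarge 1 one_pos] with n hn
      have h3 : (3 : ℝ) ≤ n := by exact_mod_cast hn.2
      have h4 : (1 : ℝ) ≤ Real.log n := by
        rw [Real.le_log_iff_exp_le (by linarith)]
        have := Real.exp_one_lt_d9
        linarith
      linarith [hn.1]
    refine (by
      have h := expanding_mul_rpow (fun _ => 1) κ a ((A : ℝ) + 2) 0 (by linarith) hb hκ1
        (by
          filter_upwards [hκ1] with n hn
          rw [one_mul]
          exact Real.one_le_rpow ha.le (by linarith)) ?_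
      · simpa only [one_mul] using h
      · intro p hp
        simp only [one_mul]
        have hM : 0 < 2 / (p * Real.log a) := by positivity
        refine summable_of_isBigO_nat (g := fun n : ℕ => (n : ℝ) ^ (-2 : ℝ))
          (Real.summable_nat_rpow.2 (by norm_num)) ?_
        refine Asymptotics.IsBigO.of_bound 1 ?_
        filter_upwards [hlarge _ hM] with n hn
        have h3 : (3 : ℝ) ≤ n := by exact_mod_cast hn.2
        rw [Real.norm_of_nonneg (Real.rpow_nonneg (Real.rpow_nonneg (by linarith) _) _),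
          Real.norm_of_nonneg (Real.rpow_nonneg (by linarith) _), one_mul,
          ← Real.rpow_mul (by linarith), Real.rpow_def_of_pos (by linarith),
          Real.rpow_def_of_pos (by linarith)]
        apply Real.exp_le_exp.2
        have h4 : p * Real.log a * (2 / (p * Real.log a) * Real.log n) ≤
            p * Real.log a * κ n := mul_le_mul_of_nonneg_left hn.1 (by positivity)
        have h5 : p * Real.log a * (2 / (p * Real.log a) * Real.log n) = 2 * Real.log n := by
          field_simp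
        nlinarith)

/-- powers `n ^ t`, `t ≥ a` -/
theorem loc_npow (a : ℝ) (ha : 0 < a) :
    LocExpanding (fun n t => (n : ℝ) ^ t) (Set.Ici a) (1 / a) := by
  refine ⟨fun A => Set.Icc a (a + A), fun t ht => ?_, fun A => ?_⟩
  · obtain ⟨A, hA⟩ := exists_nat_gt t
    exact Set.mem_iUnion.2 ⟨A, ht, by linarith⟩
  · refine ⟨fun n => (n : ℝ) ^ a, Real.log 2, 2, Real.log_pos one_lt_two, ?_, fun n hn => ⟨?_, ?_⟩⟩
    · intro p hp
      have h1 : 1 < a * p := by
        rwa [div_lt_iff₀ ha, mul_comm] at hp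
      refine (Real.summable_nat_rpow.2 (show -(a * p) < -1 by linarith)).congr fun n => ?_
      rw [← Real.rpow_mul (Nat.cast_nonneg n)]
      congr 1
      ring
    · have : (1 : ℝ) ≤ n := by exact_mod_cast (show 1 ≤ n by omega)
      exact Real.one_le_rpow this ha.le
    · have hn1 : (1 : ℝ) ≤ n := by exact_mod_cast (show 1 ≤ n by omega)
      have hn2 : (2 : ℝ) ≤ n := by exact_mod_cast hn
      rintro t ⟨ht1, ht2⟩
      refine ⟨Real.rpow_le_rpow_of_exponent_le hn1 ht1, ?_⟩
      rintro u ⟨hu1, hu2⟩ htu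
      have h1 : (n : ℝ) ^ u = (n : ℝ) ^ t * (n : ℝ) ^ (u - t) := by
        rw [← Real.rpow_add (by linarith)]
        congr 1
        ring
      have h2 : Real.log n * (u - t) + 1 ≤ (n : ℝ) ^ (u - t) := by
        rw [Real.rpow_def_of_pos (by linarith)]
        exact Real.add_one_le_exp _
      have h3 : Real.log 2 * (u - t) ≤ Real.log n * (u - t) :=
        mul_le_mul_of_nonneg_right (Real.log_le_log (by norm_num) hn2) (by linarith)
      have h4 : 0 < (n : ℝ) ^ t := Real.rpow_pos_of_pos (by linarith) _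
      simp only
      rw [h1]
      have h5 : (n : ℝ) ^ t * (Real.log 2 * (u - t)) ≤ (n : ℝ) ^ t * ((n : ℝ) ^ (u - t) - 1) :=
        mul_le_mul_of_nonneg_left (by linarith) h4.le
      nlinarith [h5]

end Pool.Agent.X16.NW
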